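import Mathlib
import Pool.Agent.H759R2.Kad.Props5

open scoped ComplexOrder InnerProductSpace ComplexConjugate
open Finset

noncomputable section

namespace H759R2.Kad

universe u v

namespace HF

variable {H : Type u} [NormedAddCommGroup H] [InnerProductSpace ℂ H] [CompleteSpace H]

theorem star_mul_zero (x : H →L[ℂ] H) (h : star x * x = 0) : x = 0 := by
  exact (CStarRing.star_mul_self_eq_zero_iff x).1 h

theorem mul_star_zero (x : H →L[ℂ] H) (h : x * star x = 0) : x = 0 := by
  exact (CStarRing.mul_star_self_eq_zero_iff x).1 h

theorem ext_proj {v w : H →L[ℂ] H} (hv : IsPI v) (hw : IsPI w) (h : Ext v w) :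
    (star w * w) * (star v * v) = star v * v := by
  unfold IsPI at hv hw
  unfold Ext at h
  have h1 : (star v * v) * (star w * w) * (star v * v) = star v * v := by
    have h2 : star v = (star v * v) * star w := by
      have := congrArg star h
      simpa [mul_assoc] using this.symm
    calc (star v * v) * (star w * w) * (star v * v)
        = ((star v * v) * star w) * (w * (star v * v)) := by noncomm_ring
      _ = star v * v := by rw [← h2, h]
  have hw1 : (star w * w) * (star w * w) = star w * w := by
    calc (star w * w) * (star w * w) = star w * (w * star w * w) := by noncomm_ring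
      _ = _ := by rw [hw]
  have hv1 : (star v * v) * (star v * v) = star v * v := by
    calc (star v * v) * (star v * v) = star v * (v * star v * v) := by noncomm_ring
      _ = _ := by rw [hv]
  have h3 : star ((star v * v) - (star w * w) * (star v * v)) *
      ((star v * v) - (star w * w) * (star v * v)) = 0 := by
    have : star ((star v * v) - (star w * w) * (star v * v)) *
      ((star v * v) - (star w * w) * (star v * v)) =
      (star v * v) * (star v * v) - 2 * ((star v * v) * (star w * w) * (star v * v))
        + (star v * v) * ((star w * w) * (star w * w)) * (star v * v) := by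
      simp only [star_sub, star_mul, star_star]
      noncomm_ring
    rw [this, hw1, h1, hv1]
    noncomm_ring
  have h4 := star_mul_zero _ h3
  exact (sub_eq_zero.1 h4).symm

theorem ext_trans {x y z : H →L[ℂ] H} (hx : IsPI x) (hy : IsPI y)
    (h1 : Ext x y) (h2 : Ext y z) : Ext x z := by
  have h := ext_proj hx hy h1
  unfold Ext at *
  calc z * (star x * x) = z * ((star y * y) * (star x * x)) := by rw [h]
    _ = (z * (star y * y)) * (star x * x) := by noncomm_ring
    _ = x := by rw [h2, h1]

end HF

theorem prove5_half (h1 : F_chain.{u}) (h2 : F_comp.{u}) (h3 : F_nomin.{u}) : F_half.{u} := by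
  intro H _ _ _ M τ hM
  let P : Type u := {v : H →L[ℂ] H // v ∈ M ∧ IsPI v ∧ v * v = 0}
  let r : P → P → Prop := fun x y => Ext x.1 y.1
  obtain ⟨⟨v, hvM, hv, hvv⟩, hmax⟩ : ∃ m : P, ∀ a, r m a → r a m := by
    apply exists_maximal_of_chains_bounded
    · intro c hc
      rcases c.eq_empty_or_nonempty with rfl | hne
      · exact ⟨⟨0, zero_mem M, by simp [IsPI], by simp⟩, by simp⟩
      · obtain ⟨V, hVM, hV, hVC, hVz⟩ := h1 H M (Subtype.val '' c) (hne.image _)
          (by rintro _ ⟨x, _, rfl⟩; exact ⟨x.2.1, x.2.2.1⟩)
          (by
            rintro _ ⟨x, hx, rfl⟩ _ ⟨y, hy, rfl⟩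
            by_cases hxy : x = y
            · subst hxy
              left
              have := x.2.2.1
              unfold IsPI at this
              unfold Ext
              rw [← mul_assoc]
              exact this
            · exact hc hx hy hxy)
        have hz : ∀ x ∈ c, ∀ y ∈ c, (x.1 : H →L[ℂ] H) * y.1 = 0 := by
          intro x hx y hy
          by_cases hxy : x = y
          · subst hxy
            exact x.2.2.2
          · rcases hc hx hy hxy with h | h
            · -- y extends x
              have h' : Ext x.1 y.1 := h
              have hp := HF.ext_proj x.2.2.1 y.2.2.1 h'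
              have hp' : (star x.1 * x.1) * (star y.1 * y.1) = star x.1 * x.1 := by
                have := congrArg star hp
                simpa [mul_assoc] using this
              unfold Ext at h'
              calc x.1 * y.1 = (y.1 * (star x.1 * x.1)) * y.1 := by rw [h']
                _ = y.1 * ((star x.1 * x.1) * (star y.1 * y.1)) * y.1 := by
                    rw [hp']
                _ = y.1 * ((star x.1 * x.1) * (star y.1)) * (y.1 * y.1) := by noncomm_ring
                _ = 0 := by rw [y.2.2.2, mul_zero]
            · -- x extends y
              have h' : Ext y.1 x.1 := h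
              unfold Ext at h'
              calc x.1 * y.1 = x.1 * (x.1 * (star y.1 * y.1)) := by rw [h']
                _ = (x.1 * x.1) * (star y.1 * y.1) := by noncomm_ring
                _ = 0 := by rw [x.2.2.2, zero_mul]
        have hxV : ∀ x ∈ c, (x.1 : H →L[ℂ] H) * V = 0 := by
          intro x hx
          have := hVz x.1 1 (by
            rintro _ ⟨y, hy, rfl⟩
            rw [hz x hx y hy, zero_mul])
          simpa using this
        have hVV : V * V = 0 := by
          have := hVz 1 V (by
            rintro _ ⟨y, hy, rfl⟩
            rw [one_mul, hxV y hy])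
          simpa using this
        refine ⟨⟨V, hVM, hV, hVV⟩, fun a ha => hVC _ ⟨a, ha, rfl⟩⟩
    · intro a b c hab hbc
      exact HF.ext_trans a.2.2.1 b.2.2.1 hab hbc
  have hsM : star v ∈ M := star_mem hvM
  set q : H →L[ℂ] H := 1 - star v * v - v * star v with hq
  have hqM : q ∈ M := sub_mem (sub_mem (one_mem M) (mul_mem hsM hvM)) (mul_mem hvM hsM)
  unfold IsPI at hv
  have hv' : star v * v * star v = star v := by
    have := congrArg star hv
    simpa [mul_assoc] using this
  have hss : star v * star v = 0 := by
    have := congrArg star hvv
    simpa using this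
  have hvq : v * q = 0 := by
    calc v * q = v - v * star v * v - (v * v) * star v := by rw [hq]; noncomm_ring
      _ = 0 := by rw [hv, hvv]; simp
  have hqv : q * v = 0 := by
    calc q * v = v - star v * (v * v) - v * star v * v := by rw [hq]; noncomm_ring
      _ = 0 := by rw [hv, hvv]; simp
  have hsq : star q = q := by
    rw [hq]; simp
  have hqsv : q * star v = 0 := by
    have := congrArg star hvq
    simpa [hsq] using this
  have hsvq : star v * q = 0 := by
    have := congrArg star hqv
    simpa [hsq] using this
  have hqq : q * q = q := by
    calc q * q = q - (q * star v) * v - (q * v) * star v := by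
          conv_lhs => rw [hq]
          rw [← hq]
          conv_lhs =>
            arg 2
            rw [hq]
          noncomm_ring
      _ = q := by rw [hqsv, hqv]; simp
  by_cases hq0 : q = 0
  · refine ⟨v, hvM, hvv, ?_⟩
    have : (1 : H →L[ℂ] H) - star v * v - v * star v = 0 := by rw [← hq]; exact hq0
    rw [sub_sub, sub_eq_zero] at this
    exact this.symm
  exfalso
  obtain ⟨s, hsM', ⟨hs1, hs2⟩, hqs, hs0, hsq'⟩ := h3 H M τ hM q hqM ⟨hsq, hqq⟩ hq0
  have hsq2 : s * q = s := by
    have := congrArg star hqs
    simpa [hsq, hs1] using this
  set t : H →L[ℂ] H := q - s with ht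
  have ht1 : star t = t := by rw [ht, star_sub, hsq, hs1]
  have ht2 : t * t = t := by
    calc t * t = q * q - q * s - s * q + s * s := by rw [ht]; noncomm_ring
      _ = t := by rw [hqq, hqs, hsq2, hs2, ht]; noncomm_ring
  have ht0 : t ≠ 0 := by
    intro h
    rw [ht, sub_eq_zero] at h
    exact hsq' h.symm
  have hst : s * t = 0 := by
    calc s * t = s * q - s * s := by rw [ht]; noncomm_ring
      _ = 0 := by rw [hsq2, hs2, sub_self]
  obtain ⟨w, hwM, hw⟩ := h2 H M hM.center s hsM' t (sub_mem hqM hsM') ⟨hs1, hs2⟩ ⟨ht1, ht2⟩
  have key : w * s = w ∧ t * w = w ∧ w * star w * w = w ∧ w ≠ 0 := by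
    rcases hw with ⟨ha, hb⟩ | ⟨ha, hb⟩
    · have hws : w * s = w := by
        have h4 : star (w - w * s) * (w - w * s) = 0 := by
          have : star (w - w * s) * (w - w * s) =
              star w * w - star w * w * s - star s * (star w * w) +
                star s * (star w * w) * s := by
            simp only [star_sub, star_mul]
            noncomm_ring
          rw [this, ha, hs1, hs2, hs2]
          noncomm_ring
        exact (sub_eq_zero.1 (HF.star_mul_zero _ h4)).symm
      refine ⟨hws, hb, ?_, ?_⟩
      · rw [mul_assoc, ha, hws]
      · rintro rfl
        apply hs0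
        rw [← ha]
        simp
    · have htw : t * w = w := by
        have h4 : (w - t * w) * star (w - t * w) = 0 := by
          have : (w - t * w) * star (w - t * w) =
              w * star w - t * (w * star w) - w * star w * star t +
                t * (w * star w) * star t := by
            simp only [star_sub, star_mul]
            noncomm_ring
          rw [this, ha, ht1, ht2, ht2]
          noncomm_ring
        exact (sub_eq_zero.1 (HF.mul_star_zero _ h4)).symm
      refine ⟨hb, htw, ?_, ?_⟩
      · rw [ha, htw]
      · rintro rfl
        apply ht0
        rw [← ha]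
        simp
  obtain ⟨hws, htw, hwp, hw0⟩ := key
  have hvs : v * s = 0 := by rw [← hqs, ← mul_assoc, hvq, zero_mul]
  have hvt : v * t = 0 := by rw [ht, mul_sub, hvq, hvs, sub_zero]
  have hsv : s * v = 0 := by rw [← hsq2, mul_assoc, hqv, mul_zero]
  have htv : t * v = 0 := by rw [ht, sub_mul, hqv, hsv, sub_zero]
  have hvw : v * w = 0 := by rw [← htw, ← mul_assoc, hvt, zero_mul]
  have hwv : w * v = 0 := by rw [← hws, mul_assoc, hsv, mul_zero]
  have hww : w * w = 0 := by
    calc w * w = (w * s) * (t * w) := by rw [hws, htw]
      _ = w * (s * t) * w := by noncomm_ring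
      _ = 0 := by rw [hst]; simp
  have hswv : star w * v = 0 := by
    have : star w = star w * t := by
      have := congrArg star htw
      simpa [ht1] using this.symm
    rw [this, mul_assoc, htv, mul_zero]
  have hsvw : star v * w = 0 := by
    have := congrArg star hswv
    simpa using this
  have hvsw : v * star w = 0 := by
    have : star w = s * star w := by
      have := congrArg star hws
      simpa [hs1] using this.symm
    rw [this, ← mul_assoc, hvs, zero_mul]
  have hwsv : w * star v = 0 := by
    have := congrArg star hvsw
    simpa using this
  let m' : P := ⟨v + w, add_mem hvM hwM, by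
    unfold IsPI
    calc (v + w) * star (v + w) * (v + w)
        = v * star v * v + v * (star v * w) + (v * star w) * (v + w) + (w * star v) * (v + w)
          + w * (star w * v) + w * star w * w := by
          simp only [star_add]; noncomm_ring
      _ = v + w := by rw [hv, hsvw, hvsw, hwsv, hswv, hwp]; simp, by
    calc (v + w) * (v + w) = v * v + v * w + w * v + w * w := by noncomm_ring
      _ = 0 := by rw [hvv, hvw, hwv, hww]; simp⟩
  have hm := hmax m' (by
    change (v + w) * (star v * v) = v
    calc (v + w) * (star v * v) = v * star v * v + (w * star v) * v := by noncomm_ring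
      _ = v := by rw [hv, hwsv]; simp)
  have hm' : v * (star (v + w) * (v + w)) = v + w := hm
  have : v * (star (v + w) * (v + w)) = v := by
    calc v * (star (v + w) * (v + w))
        = v * star v * v + v * (star v * w) + (v * star w) * (v + w) := by
          simp only [star_add]; noncomm_ring
      _ = v := by rw [hv, hsvw, hvsw]; simp
  rw [this] at hm'
  apply hw0
  have h5 : v + w = v + 0 := by rw [← hm', add_zero]
  exact add_left_cancel h5

end H759R2.Kad
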